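import Pool.Agent.W602.RG.Stm

/-!
# Project RG, part UNI: finitely many units of bounded degree with a given value at a point
-/

set_option autoImplicit false

open FF Pool.Agent.W603.LV

namespace Pool.Agent.W975.RG

theorem ord_bound {k L : Type} [Field k] [Field L] [Algebra k L] [IsAlgClosed k] [CharZero k]
    [IsFF k L] (u : L) (P : Place k L) : |P.ord u| ≤ hgt k u := by
  have key : ∀ v : L, -P.ord v ≤ hgt k v := by
    intro v
    obtain ⟨T, hT⟩ := exists_supp (k := k) (Finset.univ : Finset (Fin 1)) ![v]
    have h1 : ∀ P : Place k L, P.ord v ≠ 0 → P ∈ T := fun P => hT 0 (Finset.mem_univ _) P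
    by_cases h0 : P.ord v = 0
    · rw [h0, neg_zero]
      exact hgt_nonneg v
    · rw [hgt_finset _ T h1]
      refine le_trans (le_max_left _ 0) ?_
      exact Finset.single_le_sum (f := fun P : Place k L => max (-P.ord v) 0)
        (fun P _ => le_max_right _ _) (h1 P h0)
  rw [abs_le]
  constructor
  · have := key u
    linarith
  · have := key u⁻¹
    rw [P.ord_inv, neg_neg, hgt_inv] at this
    exact this

theorem main : Pool.Agent.W602.RG.S_UNI := by
  intro k L _ _ _ _ _ _ S c B x hc hx
  apply Set.Finite.of_injOn (f := fun u : L => fun P : S => (P : Place k L).ord u)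
    (t := {g : S → ℤ | ∀ P, g P ∈ Set.Icc (-B) B})
  · rintro u ⟨hu0, hu1, hu2, hu3⟩ P
    exact abs_le.1 ((ord_bound u P.1).trans hu2)
  · rintro u ⟨hu0, hu1, hu2, hu3⟩ v ⟨hv0, hv1, hv2, hv3⟩ huv
    have hord : ∀ P : Place k L, P.ord (u / v) = 0 := by
      intro P
      rw [P.ord_div hu0 hv0]
      by_cases hP : P ∈ S
      · have := congrFun huv ⟨P, hP⟩
        simp only at this
        rw [this, sub_self]
      · rw [hu1 P hP, hv1 P hP, sub_self]
    have hh : hgt k (u / v) ≤ 0 := by
      rw [hgt_finset (k := k) (u / v) ∅ (fun P h => absurd (hord P) h)]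
      simp
    obtain ⟨κ, hκ⟩ := const_of_hgt hh
    have huκ : u = algebraMap k L κ * v := by
      rw [← hκ]
      field_simp
    have gu : Ge c 1 (u - algebraMap k L x) := by
      rcases hu3 with h | h
      · left
        rw [h, sub_self]
      · right
        omega
    have gv : Ge c 1 (v - algebraMap k L x) := by
      rcases hv3 with h | h
      · left
        rw [h, sub_self]
      · right
        omega
    have g1 : Ge c 1 (algebraMap k L ((κ - 1) * x)) := by
      have g2 := gu.sub ((Ge.const (P := c) κ).mul gv |>.mono (by norm_num : (1 : ℤ) ≤ 0 + 1))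
      have e : u - algebraMap k L x - algebraMap k L κ * (v - algebraMap k L x) =
          algebraMap k L ((κ - 1) * x) := by
        rw [huκ, map_mul, map_sub, map_one]
        ring
      rw [e] at g2
      exact g2
    have hz : (κ - 1) * x = 0 := by
      by_contra hne
      rcases g1 with h | h
      · exact hne ((map_eq_zero _).1 h)
      · rw [c.ord_const hne] at h
        omega
    have hκ1 : κ = 1 := by
      rcases mul_eq_zero.1 hz with h | h
      · exact sub_eq_zero.1 h
      · exact absurd h hx
    rw [huκ, hκ1, map_one, one_mul]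
  · exact Set.Finite.pi' fun P => Set.finite_Icc (-B) B

end Pool.Agent.W975.RG
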